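import Pool.Agent.Q124.ZD.DecA

/-! # ZD-DEC: the stabilizers of commuting homeomorphisms are computable -/

set_option autoImplicit false

namespace Pool.Agent.Q124.ZD

open Encodable Pool.Agent.Helper227 Pool.Agent.H548R2.Post
open Nat.Partrec (Code)
open Pool.Agent.TH769.TP (Via lab Unb)
open Pool.Agent.Q216.ZD

/-- weighted letter sums -/
def ws (l : List ℕ) (w : List ℕ) : ℕ := w.foldr (fun c s => l.getD c 0 + s) 0

theorem ws_cons (l : List ℕ) (c : ℕ) (w : List ℕ) : ws l (c :: w) = l.getD c 0 + ws l w := rfl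

theorem primrec_ws (l : List ℕ) : Primrec (ws l) := by
  unfold ws
  refine Primrec.list_foldr (f := fun w : List ℕ => w) (g := fun _ => 0)
    (h := fun _ (x : ℕ × ℕ) => l.getD x.1 0 + x.2) Primrec.id (Primrec.const 0) ?_
  exact Primrec.nat_add.comp
    ((Primrec.list_getD 0).comp (Primrec.const l) (Primrec.fst.comp Primrec.snd))
    (Primrec.snd.comp Primrec.snd)

theorem hom_prim {L N : ℕ} (ψ : (Fin L → ℤ) →+ ZMod N) : ∃ q : List ℕ → Prop, PrimrecPred q ∧
    ∀ w, Wd L w → (q w ↔ ψ (vec L w) = 0) := by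
  have h1 : ∀ c, ∃ z : ℤ, (z : ZMod N) = ψ (ev L c) := fun c => ZMod.intCast_surjective _
  choose z hz using h1
  let lp : List ℕ := (List.range L).map fun c => (z c).toNat
  let lm : List ℕ := (List.range L).map fun c => (-z c).toNat
  have hp : ∀ c < L, lp.getD c 0 = (z c).toNat := by
    intro c hc
    simp [lp, List.getD, hc]
  have hm : ∀ c < L, lm.getD c 0 = (-z c).toNat := by
    intro c hc
    simp [lm, List.getD, hc]
  have hs : ∀ w, Wd L w → ψ (vec L w) = (ws lp w : ZMod N) - (ws lm w : ZMod N) := by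
    intro w
    induction w with
    | nil =>
      intro _
      simp [vec, ws]
    | cons c w ih =>
      intro hw
      have e1 : vec L (c :: w) = ev L c + vec L w := by simp [vec]
      have e2 : (((z c).toNat : ℤ) - ((-z c).toNat : ℤ)) = z c := Int.toNat_sub_toNat_neg (z c)
      have e3 : (((z c).toNat : ZMod N) - ((-z c).toNat : ZMod N)) = ψ (ev L c) := by
        rw [← hz, ← e2]
        push_cast
        rw [e2]
      rw [e1, map_add, ih (wd_tail hw), ws_cons, ws_cons, hp c (hw c (by simp)),
        hm c (hw c (by simp)), ← e3]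
      push_cast
      ring
  refine ⟨fun w => ws lp w % N = ws lm w % N, ?_, fun w hw => ?_⟩
  · exact Primrec.eq.comp (Primrec.nat_mod.comp (primrec_ws lp) (Primrec.const N))
      (Primrec.nat_mod.comp (primrec_ws lm) (Primrec.const N))
  · rw [hs w hw, sub_eq_zero, ZMod.natCast_eq_natCast_iff]
    rfl

theorem fin_prim {J : Type} [Fintype J] (q : J → List ℕ → Prop) (hq : ∀ j, PrimrecPred (q j)) :
    PrimrecPred fun w => ∀ j, q j w := by
  classical
  have h1 : ∀ s : Finset J, PrimrecPred fun w => ∀ j ∈ s, q j w := by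
    intro s
    induction s using Finset.induction_on with
    | empty => exact (PP.const True).of_eq (by simp)
    | insert j s _ ih => exact ((hq j).and ih).of_eq (by simp)
  exact (h1 Finset.univ).of_eq (by simp)

theorem t_DEC : S_DEC := by
  classical
  intro ps L T hA hC X
  obtain ⟨J, hJ, N, ψ, hψ⟩ := sub_congr (stb hA hC X)
  have h1 := fun j => hom_prim (ψ j)
  choose q hq hq2 using h1
  have h2 := fin_prim q hq
  have h3 : ∀ w, Wd L w → ((∀ j, q j w) ↔ act T w X = X) := by
    intro w hw
    rw [← mem_stb hA hC X w hw, hψ]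
    exact forall_congr' fun j => hq2 j w hw
  have h4 : Primrec fun w : List ℕ => if (∀ j, q j w) then 1 else 0 :=
    Primrec.ite h2 (Primrec.const 1) (Primrec.const 0)
  have h5 : Partrec fun w : List ℕ => Part.some (if (∀ j, q j w) then 1 else 0) :=
    h4.to_comp.partrec
  obtain ⟨c, hc⟩ := Nat.Partrec.Code.exists_code.1 h5
  have hev : ∀ (w : List ℕ) (v : ℕ), v ∈ c.eval (encode w) ↔ v = if (∀ j, q j w) then 1 else 0 := by
    intro w v
    rw [hc]
    simp
  refine ⟨c, fun w u hw hu v => ?_⟩
  rw [hev]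
  have h6 : (∀ j, q j w) ↔ act T w (act T u X) = act T u X := by
    rw [h3 w hw, act_comm hA hC w u hw hu]
    exact ⟨fun h => by rw [h], fun h => act_inj hA hu h⟩
  simp only [h6]

end Pool.Agent.Q124.ZD
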