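import Pool.Agent.Q216.ZD.Base

/-! # ZD-DEC: the stabilizers of commuting homeomorphisms are computable -/

set_option autoImplicit false

namespace Pool.Agent.Q124.ZD

open Encodable Pool.Agent.Helper227 Pool.Agent.H548R2.Post
open Nat.Partrec (Code)
open Pool.Agent.TH769.TP (Via lab Unb)
open Pool.Agent.Q216.ZD

section
variable {L : ℕ} {T : ℕ → R → R} {ps : List Code}

/-- the permutation given by a letter -/
def pm (hA : Acts ps L T) (c : Fin L) : Equiv.Perm R where
  toFun := T c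
  invFun := T ((c : ℕ) ^^^ 1)
  left_inv := fun X => hA.inv c c.2 X
  right_inv := fun X => inv' hA c.2 X

/-- the action of exponent vectors -/
noncomputable def Ph (hA : Acts ps L T)
    (hC : ∀ c < L, ∀ c' < L, ∀ X, T c (T c' X) = T c' (T c X)) :
    (Fin L → Multiplicative ℤ) →* Equiv.Perm R :=
  MonoidHom.noncommPiCoprod (fun c => zpowersHom _ (pm hA c)) (by
    intro i j _ x y
    simp only [zpowersHom_apply]
    refine Commute.zpow_zpow ?_ _ _
    ext1 X
    exact hC i i.2 j j.2 X)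

/-- the vector of a letter -/
def ev (L : ℕ) (c : ℕ) : Fin L → ℤ := fun d => if (d : ℕ) = c then 1 else 0

/-- the vector of a word -/
def vec (L : ℕ) (w : List ℕ) : Fin L → ℤ := (w.map (ev L)).sum

/-- the same, multiplicatively -/
def mv (v : Fin L → ℤ) : Fin L → Multiplicative ℤ := fun c => Multiplicative.ofAdd (v c)

theorem mv_add (v w : Fin L → ℤ) : mv (v + w) = mv v * mv w := rfl

theorem mv_zero : mv (0 : Fin L → ℤ) = 1 := rfl

theorem mv_neg (v : Fin L → ℤ) : mv (-v) = (mv v)⁻¹ := rfl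

theorem Ph_ev (hA : Acts ps L T) (hC) (c : ℕ) (hc : c < L) (X : R) :
    Ph hA hC (mv (ev L c)) X = T c X := by
  have h1 : mv (ev L c) = Pi.mulSingle (⟨c, hc⟩ : Fin L) (Multiplicative.ofAdd (1 : ℤ)) := by
    funext d
    by_cases h : d = ⟨c, hc⟩
    · subst h
      simp [mv, ev]
    · rw [Pi.mulSingle_eq_of_ne h]
      have : (d : ℕ) ≠ c := fun e => h (Fin.ext e)
      simp [mv, ev, this]
  unfold Ph
  rw [h1, MonoidHom.noncommPiCoprod_mulSingle]
  simp [zpowersHom_apply, pm]

theorem Ph_vec (hA : Acts ps L T) (hC) (w : List ℕ) (hw : Wd L w) (X : R) :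
    Ph hA hC (mv (vec L w)) X = act T w X := by
  induction w generalizing X with
  | nil =>
    simp only [vec, List.map_nil, List.sum_nil, mv_zero, map_one, act_nil]
    rfl
  | cons c w ih =>
    have h1 : vec L (c :: w) = ev L c + vec L w := by simp [vec]
    rw [h1, mv_add, map_mul, Equiv.Perm.mul_apply, ih (wd_tail hw), act_cons]
    exact Ph_ev hA hC c (hw c (by simp)) _

/-- the stabilizer -/
def stb (hA : Acts ps L T) (hC : ∀ c < L, ∀ c' < L, ∀ X, T c (T c' X) = T c' (T c X)) (X : R) :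
    AddSubgroup (Fin L → ℤ) where
  carrier := {v | Ph hA hC (mv v) X = X}
  add_mem' := by
    intro v w hv hw
    show Ph hA hC (mv (v + w)) X = X
    rw [mv_add, map_mul, Equiv.Perm.mul_apply]
    have h1 : Ph hA hC (mv w) X = X := hw
    have h2 : Ph hA hC (mv v) X = X := hv
    rw [h1, h2]
  zero_mem' := by
    show Ph hA hC (mv 0) X = X
    rw [mv_zero, map_one]
    rfl
  neg_mem' := by
    intro v hv
    show Ph hA hC (mv (-v)) X = X
    have h2 : Ph hA hC (mv v) X = X := hv
    rw [mv_neg, map_inv, Equiv.Perm.inv_eq_iff_eq]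
    exact h2.symm

theorem mem_stb (hA : Acts ps L T) (hC) (X : R) (w : List ℕ) (hw : Wd L w) :
    vec L w ∈ stb hA hC X ↔ act T w X = X := by
  show Ph hA hC (mv (vec L w)) X = X ↔ _
  rw [Ph_vec hA hC w hw]

theorem act_comm (hA : Acts ps L T)
    (hC : ∀ c < L, ∀ c' < L, ∀ X, T c (T c' X) = T c' (T c X)) (w u : List ℕ) (hw : Wd L w)
    (hu : Wd L u) (X : R) : act T w (act T u X) = act T u (act T w X) := by
  rw [← Ph_vec hA hC w hw, ← Ph_vec hA hC u hu, ← Ph_vec hA hC w hw, ← Ph_vec hA hC u hu,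
    ← Equiv.Perm.mul_apply, ← Equiv.Perm.mul_apply, ← map_mul, ← map_mul, mul_comm]

end

/-- subgroups of `ℤ ^ L` are given by finitely many congruences -/
theorem sub_congr {L : ℕ} (K : AddSubgroup (Fin L → ℤ)) : ∃ (J : Type) (_ : Fintype J) (N : J → ℕ)
    (ψ : ∀ j, (Fin L → ℤ) →+ ZMod (N j)), ∀ v, v ∈ K ↔ ∀ j, ψ j v = 0 := by
  have h0 : AddGroup.FG (Fin L → ℤ) := Module.Finite.iff_addGroup_fg.1 inferInstance
  have hfg : AddGroup.FG ((Fin L → ℤ) ⧸ K) :=
    AddGroup.fg_of_surjective (f := QuotientAddGroup.mk' K) (QuotientAddGroup.mk'_surjective K)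
  obtain ⟨n, ι, hι, p, -, e, ⟨E⟩⟩ := AddCommGroup.equiv_free_prod_directSum_zmod ((Fin L → ℤ) ⧸ K)
  classical
  let π : (Fin L → ℤ) →+ (Fin n →₀ ℤ) × (DirectSum ι fun i => ZMod (p i ^ e i)) :=
    E.toAddMonoidHom.comp (QuotientAddGroup.mk' K)
  have hπ : ∀ v, v ∈ K ↔ π v = 0 := by
    intro v
    show _ ↔ E (QuotientAddGroup.mk' K v) = 0
    rw [map_eq_zero_iff E E.injective]
    exact (QuotientAddGroup.eq_zero_iff v).symm
  refine ⟨Fin n ⊕ ι, inferInstance, fun j => Sum.elim (fun _ => 0) (fun i => p i ^ e i) j, fun j =>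
    match j with
    | Sum.inl a => ((Int.castAddHom (ZMod 0)).comp (Finsupp.applyAddHom a)).comp
        ((AddMonoidHom.fst _ _).comp π)
    | Sum.inr i => ((DirectSum.component ℕ ι _ i).toAddMonoidHom).comp
        ((AddMonoidHom.snd _ _).comp π), fun v => ?_⟩
  rw [hπ]
  constructor
  · intro h j
    cases j with
    | inl a =>
      show (((π v).1 a : ℤ) : ZMod 0) = 0
      rw [h]
      rfl
    | inr i =>
      show (π v).2 i = 0
      rw [h]
      rfl
  · intro h
    refine Prod.ext ?_ ?_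
    · ext a
      exact h (Sum.inl a)
    · refine DFinsupp.ext fun i => ?_
      exact h (Sum.inr i)

end Pool.Agent.Q124.ZD
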