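import Pool.Agent.Q216.ZD.Base

/-! # ZD-INIT: programs for the start -/

set_option autoImplicit false

namespace Pool.Agent.Q124.ZD

open Encodable Pool.Agent.Helper227 Pool.Agent.H548R2.Post
open Nat.Partrec (Code)
open Pool.Agent.TH769.TP (Via lab Unb lb pf_lb lb_lt lb_eq pre_lab)
open Pool.Agent.Q216.ZD

/-- relations for labelled oracles -/
theorem us_lab {α : Type} [Primcodable α] {P : R → ℕ × α → Prop} (hP : US P) :
    ∃ P' : R → α → Prop, US P' ∧ ∀ n X a, P' (lab n X) a ↔ P X (n, a) := by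
  obtain ⟨E, hE, mE, eE⟩ := hP
  let E' : List Bool × α → Prop := fun x =>
    lb x.1 < x.1.length ∧ E (x.1.drop (lb x.1 + 1), (lb x.1, x.2))
  have hlb : Primrec fun x : List Bool × α => lb x.1 := pf_lb.comp Primrec.fst
  have hE' : S1 E' := by
    refine (S1.of_prim (Primrec.nat_lt.comp hlb (Primrec.list_length.comp Primrec.fst))).and
      (hE.comp ?_)
    exact (Primrec.list_drop.comp (Primrec.succ.comp hlb) Primrec.fst).pair
      (hlb.pair Primrec.snd)
  have mE' : ∀ σ τ a, σ <+: τ → E' (σ, a) → E' (τ, a) := by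
    rintro σ τ a ⟨ρ, rfl⟩ ⟨h1, h2⟩
    simp only at h1 h2
    have h3 : lb (σ ++ ρ) = lb σ := by
      unfold lb at h1 ⊢
      rw [List.findIdx_append, if_pos h1]
    refine ⟨?_, ?_⟩
    · show lb (σ ++ ρ) < (σ ++ ρ).length
      rw [h3, List.length_append]
      omega
    · show E ((σ ++ ρ).drop (lb (σ ++ ρ) + 1), (lb (σ ++ ρ), a))
      rw [h3, List.drop_append_of_le_length (by omega)]
      exact mE _ _ _ ⟨ρ, rfl⟩ h2
  refine ⟨fun Z a => ∃ s, E' (pre Z s, a), ⟨E', hE', mE', fun _ _ => Iff.rfl⟩, fun n X a => ?_⟩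
  rw [eE]
  constructor
  · rintro ⟨s, h1, h2⟩
    rcases Nat.lt_or_ge n s with h3 | h3
    · obtain ⟨t, rfl⟩ : ∃ t, s = n + 1 + t := ⟨s - (n + 1), by omega⟩
      simp only [lb_eq] at h2
      rw [pre_lab, List.drop_append] at h2
      refine ⟨t, ?_⟩
      simpa using h2
    · exact absurd h1 (lb_lt X h3)
  · rintro ⟨t, h⟩
    refine ⟨n + 1 + t, ?_, ?_⟩
    · show lb (pre (lab n X) (n + 1 + t)) < _
      rw [lb_eq, length_pre]
      omega
    · show E ((pre (lab n X) (n + 1 + t)).drop (lb (pre (lab n X) (n + 1 + t)) + 1),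
        (lb (pre (lab n X) (n + 1 + t)), a))
      rw [lb_eq, pre_lab, List.drop_append]
      simpa using h

theorem primrec_WL (L : ℕ) : Primrec (WL L) := by
  have h1 : Primrec₂ fun (_ : ℕ) (l : List (List ℕ)) =>
      ([] : List ℕ) :: l.flatMap fun w => (List.range L).map fun c => c :: w := by
    refine Primrec.list_cons.comp (Primrec.const []) ?_
    refine Primrec.list_flatMap Primrec.snd ?_
    refine Primrec.list_map (Primrec.const _) ?_
    exact Primrec.list_cons.comp Primrec.snd (Primrec.snd.comp Primrec.fst)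
  refine (Primrec.nat_rec₁ [[]] h1).of_eq fun n => ?_
  induction n with
  | zero => rfl
  | succ n ih =>
    simp only [WL]
    rw [← ih]

theorem primrec_sg : Primrec sg := by
  unfold sg
  exact Primrec.option_getD.comp Primrec.decode (Primrec.const [])

theorem pre_eq_iff (Y : R) (σ : List Bool) :
    pre Y σ.length = σ ↔ ∀ i < σ.length, Y i = σ.getD i false := by
  constructor
  · intro h i hi
    have h1 : (pre Y σ.length)[i]? = σ[i]? := by rw [h]
    rw [pre_getElem? _ _ _ hi] at h1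
    rw [List.getD, ← h1]
    rfl
  · intro h
    refine List.ext_getElem (by simp [length_pre]) fun i h1 h2 => ?_
    have h3 := h i h2
    have h4 : (pre Y σ.length)[i]? = some (Y i) := pre_getElem? _ _ _ h2
    rw [List.getElem?_eq_getElem h1] at h4
    have h5 := Option.some.inj h4
    rw [h5, h3]
    simp [List.getD, h2]

section
variable {L : ℕ} {T : ℕ → R → R} {ps : List Code}

theorem us_zt (h1 : S_ACT) (hA : Acts ps L T) :
    US fun X (x : ℕ × ℕ × Bool) => Zt (Ball L T x.1 X) x.2.1 = x.2.2 := by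
  have hact := h1 ps L T hA
  have hb : Primrec fun x : ℕ × ℕ × Bool => WL L x.1 := (primrec_WL L).comp Primrec.fst
  have hlen : Primrec fun x : (ℕ × ℕ × Bool) × List ℕ => (sg x.1.2.1).length :=
    Primrec.list_length.comp (primrec_sg.comp (Primrec.fst.comp (Primrec.snd.comp Primrec.fst)))
  have hg : Primrec fun x : ((ℕ × ℕ × Bool) × List ℕ) × ℕ => (sg x.1.1.2.1).getD x.2 false :=
    (Primrec.list_getD false).comp
      (primrec_sg.comp (Primrec.fst.comp (Primrec.snd.comp (Primrec.fst.comp Primrec.fst))))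
      Primrec.snd
  have u1 : US fun X (x : ℕ × ℕ × Bool) => ∃ w ∈ WL L x.1, ∀ i < (sg x.2.1).length,
      Wd L w ∧ act T w X i = (sg x.2.1).getD i false := by
    refine US.ex_mem (P := fun X (x : ℕ × ℕ × Bool) w => ∀ i < (sg x.2.1).length,
      Wd L w ∧ act T w X i = (sg x.2.1).getD i false) ?_ hb
    refine US.all_lt (P := fun X (x : (ℕ × ℕ × Bool) × List ℕ) i =>
      Wd L x.2 ∧ act T x.2 X i = (sg x.1.2.1).getD i false) ?_ hlen
    exact hact.comp (f := fun x : ((ℕ × ℕ × Bool) × List ℕ) × ℕ =>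
      (x.1.2, x.2, (sg x.1.1.2.1).getD x.2 false))
      ((Primrec.snd.comp Primrec.fst).pair (Primrec.snd.pair hg))
  have u2 : US fun X (x : ℕ × ℕ × Bool) => ∀ w ∈ WL L x.1, ∃ i ∈ List.range (sg x.2.1).length,
      Wd L w ∧ act T w X i = !(sg x.2.1).getD i false := by
    refine US.all_mem (P := fun X (x : ℕ × ℕ × Bool) w => ∃ i ∈ List.range (sg x.2.1).length,
      Wd L w ∧ act T w X i = !(sg x.2.1).getD i false) ?_ hb
    refine US.ex_mem (P := fun X (x : (ℕ × ℕ × Bool) × List ℕ) i =>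
      Wd L x.2 ∧ act T x.2 X i = !(sg x.1.2.1).getD i false) ?_ (Primrec.list_range.comp hlen)
    exact hact.comp (f := fun x : ((ℕ × ℕ × Bool) × List ℕ) × ℕ =>
      (x.1.2, x.2, !(sg x.1.1.2.1).getD x.2 false))
      ((Primrec.snd.comp Primrec.fst).pair (Primrec.snd.pair (Primrec.not.comp hg)))
  have v1 : US fun (_ : R) (x : ℕ × ℕ × Bool) => x.2.2 = true :=
    US.of_prim (Primrec.eq.comp (Primrec.snd.comp Primrec.snd) (Primrec.const true))
  have v2 : US fun (_ : R) (x : ℕ × ℕ × Bool) => x.2.2 = false :=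
    US.of_prim (Primrec.eq.comp (Primrec.snd.comp Primrec.snd) (Primrec.const false))
  refine ((v1.and u1).or (v2.and u2)).of_eq fun X x => ?_
  obtain ⟨b, m, v⟩ := x
  simp only
  have key : Zt (Ball L T b X) m = true ↔ ∃ w ∈ WL L b, ∀ i < (sg m).length,
      Wd L w ∧ act T w X i = (sg m).getD i false := by
    rw [zt_iff]
    constructor
    · rintro ⟨Y, ⟨w, hw, rfl⟩, h⟩
      exact ⟨w, hw, fun i hi => ⟨(mem_WL.1 hw).1, (pre_eq_iff _ _).1 h i hi⟩⟩
    · rintro ⟨w, hw, h⟩
      exact ⟨_, ⟨w, hw, rfl⟩, (pre_eq_iff _ _).2 fun i hi => (h i hi).2⟩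
  cases v with
  | true => simp [key]
  | false =>
    have h2 : Zt (Ball L T b X) m = false ↔ ¬ Zt (Ball L T b X) m = true := by
      rw [Bool.not_eq_true]
    rw [h2, key]
    simp only [Bool.false_eq_true, false_and, true_and, false_or, not_exists, not_and, not_forall,
      List.mem_range]
    refine forall_congr' fun w => forall_congr' fun hw => ?_
    have hwd := (mem_WL.1 hw).1
    constructor
    · rintro ⟨i, hi, -, h⟩
      exact ⟨i, hi, fun _ => by rw [h]; simp⟩
    · rintro ⟨i, hi, h⟩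
      refine ⟨i, hi, hwd, ?_⟩
      have h3 := h hwd
      cases h4 : act T w X i <;> cases h5 : (sg m).getD i false <;> simp_all

theorem t_INIT (h0 : S_PROG) (h1 : S_ACT) : S_INIT := by
  intro ps L T hA I hI
  let en : ℕ → ℕ := fun n => encode (I ((decode (α := Code) n).getD Code.zero))
  have hen : Primrec en :=
    Primrec.encode.comp (hI.comp (Primrec.option_getD.comp Primrec.decode (Primrec.const _)))
  let P : R → ℕ × ℕ × ℕ × Bool → Prop := fun X x =>
    (x.2.2.1 < en x.1 ∧ x.2.2.2 = false) ∨ ((x.2.2.1 = en x.1 ∧ x.2.2.2 = true) ∨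
      ((x.2.2.1 = en x.1 + 1 ∧ x.2.2.2 = true) ∨ (en x.1 + 2 ≤ x.2.2.1 ∧
        Zt (Ball L T x.2.1 X) (x.2.2.1 - (en x.1 + 2)) = x.2.2.2)))
  have pe : Primrec fun x : ℕ × ℕ × ℕ × Bool => en x.1 := hen.comp Primrec.fst
  have pm : Primrec fun x : ℕ × ℕ × ℕ × Bool => x.2.2.1 :=
    Primrec.fst.comp (Primrec.snd.comp Primrec.snd)
  have pv : Primrec fun x : ℕ × ℕ × ℕ × Bool => x.2.2.2 :=
    Primrec.snd.comp (Primrec.snd.comp Primrec.snd)
  have hP : US P := by
    refine US.or (US.of_prim ?_) (US.or (US.of_prim ?_) (US.or (US.of_prim ?_)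
      (US.and (US.of_prim ?_) ?_)))
    · exact (Primrec.nat_lt.comp pm pe).and (Primrec.eq.comp pv (Primrec.const false))
    · exact (Primrec.eq.comp pm pe).and (Primrec.eq.comp pv (Primrec.const true))
    · exact (Primrec.eq.comp pm (Primrec.succ.comp pe)).and
        (Primrec.eq.comp pv (Primrec.const true))
    · exact Primrec.nat_le.comp (Primrec.nat_add.comp pe (Primrec.const 2)) pm
    · exact (us_zt h1 hA).comp (f := fun x : ℕ × ℕ × ℕ × Bool =>
        (x.2.1, x.2.2.1 - (en x.1 + 2), x.2.2.2))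
        ((Primrec.fst.comp Primrec.snd).pair
          ((Primrec.nat_sub.comp pm (Primrec.nat_add.comp pe (Primrec.const 2))).pair pv))
  obtain ⟨P', hP', hlab⟩ := us_lab hP
  obtain ⟨J, hJ, hV⟩ := h0 ℕ P' hP'
  refine ⟨J, hJ, fun b a X => hV b _ _ fun m v => ?_⟩
  rw [hlab]
  have e1 : en (encode a) = encode (I a) := by simp [en]
  simp only [P, e1]
  generalize encode (I a) = e
  unfold lab
  rcases lt_trichotomy m e with h | h | h
  · rw [if_pos h]
    constructor
    · rintro (⟨-, h2⟩ | ⟨h2, -⟩ | ⟨h2, -⟩ | ⟨h2, -⟩)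
      · exact h2.symm
      all_goals omega
    · intro h2
      exact Or.inl ⟨h, h2.symm⟩
  · subst h
    rw [if_neg (lt_irrefl _), if_pos rfl]
    constructor
    · rintro (⟨h2, -⟩ | ⟨-, h2⟩ | ⟨h2, -⟩ | ⟨h2, -⟩)
      · omega
      · exact h2.symm
      all_goals omega
    · intro h2
      exact Or.inr (Or.inl ⟨rfl, h2.symm⟩)
  · rw [if_neg (by omega), if_neg (by omega), if_neg (by omega)]
    by_cases h3 : m = e + 1
    · subst h3
      rw [if_pos (by omega)]
      constructor
      · rintro (⟨h2, -⟩ | ⟨h2, -⟩ | ⟨-, h2⟩ | ⟨h2, -⟩)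
        · omega
        · omega
        · exact h2.symm
        · omega
      · intro h2
        exact Or.inr (Or.inr (Or.inl ⟨rfl, h2.symm⟩))
    · rw [if_neg (by omega)]
      have e2 : m - e - 1 - 0 - 1 = m - (e + 2) := by omega
      rw [e2]
      constructor
      · rintro (⟨h2, -⟩ | ⟨h2, -⟩ | ⟨h2, -⟩ | ⟨-, h2⟩)
        · omega
        · omega
        · omega
        · exact h2
      · intro h2
        exact Or.inr (Or.inr (Or.inr ⟨by omega, h2⟩))

end

end Pool.Agent.Q124.ZD
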