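import Pool.Agent.Q216.ZD.Base

/-! # ZD-PATCH: patching of operators -/

set_option autoImplicit false

namespace Pool.Agent.Q124.ZD.Patch

open Encodable Pool.Agent.Helper227 Pool.Agent.H548R2.Post
open Nat.Partrec (Code)
open Pool.Agent.TH769.ZA (si_gen pf_sub)
open Pool.Agent.TH769.CD (bdd_lt pf_add pf_mul pf_div pf_mod pf_pow pf_getD pf_take
  pf_append pf_cons pf_length pf_range pf_natPair pf_unpair pf_encode pf_testBit pf_xorb pf_andb
  pf_hlt pf_xor pp_exlt pp_alllt pp_imp pp_eq pp_le pp_lt pp_mem pf_decide pf_pre pp_En pf_ext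
  ext_pre_eq)
open Pool.Agent.TH769.TP (Via lab Unb Lim fv Fn FF lim_FF pf_FF code_bd)
open Pool.Agent.Q216.ZD

attribute [local fun_prop] Primrec
attribute [local fun_prop] Primrec.id Primrec.const Primrec.comp Primrec.pair Primrec.fst Primrec.snd
attribute [local fun_prop] pf_add pf_mul pf_div pf_mod pf_pow pf_getD pf_take pf_append pf_cons
  pf_length pf_range pf_natPair pf_unpair pf_encode pf_testBit pf_xorb pf_andb pf_hlt pf_xor
  pf_sub

theorem pf_fv' {β : Type} [Primcodable β] {i : β → Code} {σ : β → List Bool} {n : β → ℕ}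
    (hi : Primrec i) (hσ : Primrec σ) (hn : Primrec n) : Primrec fun b => fv (i b) (σ b) (n b) := by
  unfold fv
  refine Primrec.list_head?.comp (Primrec.listFilterMap (pf_range (pf_length hσ)) ?_)
  have h : Primrec fun x : β × ℕ => (((x.2.unpair.1, i x.1), encode ((σ x.1).take x.2.unpair.2, n x.1)) :
      (ℕ × Code) × ℕ) := by fun_prop
  exact Nat.Partrec.Code.primrec_evaln.comp h

theorem pf_FF' {β : Type} [Primcodable β] {i : β → Code} {σ : β → List Bool}
    (hi : Primrec i) (hσ : Primrec σ) : Primrec fun b => FF (i b) (σ b) := by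
  have hh : Primrec₂ fun (b : β) (y : ℕ × List Bool) =>
      cond (decide (y.2.length = y.1))
        (y.2 ++ ((fv (i b) (σ b) y.1).map (fun v => v == 1)).toList) y.2 := by
    have h0 : Primrec₂ fun (_ : β × (ℕ × List Bool)) (v : ℕ) => (v == 1) :=
      Primrec.beq.comp Primrec.snd (Primrec.const 1)
    have h1 : Primrec fun x : β × (ℕ × List Bool) =>
        (fv (i x.1) (σ x.1) x.2.1).map (fun v => v == 1) :=
      Primrec.option_map (pf_fv' (by fun_prop) (by fun_prop) (by fun_prop)) h0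
    have h2 : Primrec fun x : β × (ℕ × List Bool) =>
        cond (decide (x.2.2.length = x.2.1))
          (x.2.2 ++ ((fv (i x.1) (σ x.1) x.2.1).map (fun v => v == 1)).toList) x.2.2 :=
      Primrec.cond (pf_decide (pp_eq (by fun_prop) (by fun_prop)) _)
        (pf_append (by fun_prop) (Primrec.optionToList.comp h1)) (by fun_prop)
    exact h2
  have h := Primrec.nat_rec' (f := fun b : β => (σ b).length)
    (g := fun _ => ([] : List Bool)) (pf_length hσ) (Primrec.const []) hh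
  refine h.of_eq fun b => ?_
  unfold FF
  generalize (σ b).length = n
  induction n with
  | zero => rfl
  | succ n ih =>
    change _ = cond (decide ((Fn (i b) (σ b) n).length = n))
      (Fn (i b) (σ b) n ++ ((fv (i b) (σ b) n).map (fun v => v == 1)).toList) (Fn (i b) (σ b) n)
    rw [← ih]

/-- The condition under which the number `m` (in the column `m.unpair.1`) is enumerated. -/
def Mxi (e : ℕ) (H : ℕ → List Bool → List Bool) (Q : ℕ → List Bool → ℕ → Prop) (σ : List Bool)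
    (m : ℕ) : Prop :=
  Q (m.unpair.1 + 1) σ (m.unpair.1 + m.unpair.2 + 1) ∧
  (∃ k < (H m.unpair.1 σ).length + 1,
    hlt σ.length e m.unpair.2 ((H m.unpair.1 σ).take k) = true) ∧
  ¬ Q m.unpair.1 σ (m.unpair.2 + 1)

/-- the simulation -/
def UUi (e : ℕ) (H : ℕ → List Bool → List Bool) (Q : ℕ → List Bool → ℕ → Prop) (X : ℕ → Bool)
    (m : ℕ) : Prop := ∃ s, Mxi e H Q (pre X s) m

/-- the number `m` is frozen -/
def FZi (e : ℕ) (H : ℕ → List Bool → List Bool) (Q : ℕ → List Bool → ℕ → Prop) (X : ℕ → Bool)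
    (m : ℕ) : Prop := ∃ s0, Q m.unpair.1 (pre X s0) (m.unpair.2 + 1) ∧
      ∀ s < s0, ¬ Mxi e H Q (pre X s) m

section

variable {e : ℕ} {H : ℕ → List Bool → List Bool} {Q : ℕ → List Bool → ℕ → Prop} {X : ℕ → Bool}

theorem pp_Q {β : Type} [Primcodable β] (hR : PrimrecPred fun x : ℕ × List Bool × ℕ =>
      Q x.1 x.2.1 x.2.2) {n k : β → ℕ} {σ : β → List Bool} (hn : Primrec n) (hσ : Primrec σ)
    (hk : Primrec k) : PrimrecPred fun b => Q (n b) (σ b) (k b) :=
  hR.comp (p := fun x : ℕ × List Bool × ℕ => Q x.1 x.2.1 x.2.2)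
    (f := fun b => (n b, σ b, k b)) (by fun_prop)

theorem pp_Mxi (e : ℕ) (hH : Primrec fun x : ℕ × List Bool => H x.1 x.2)
    (hR : PrimrecPred fun x : ℕ × List Bool × ℕ => Q x.1 x.2.1 x.2.2) {β : Type} [Primcodable β]
    {σ : β → List Bool} {m : β → ℕ} (hσ : Primrec σ) (hm : Primrec m) :
    PrimrecPred fun b => Mxi e H Q (σ b) (m b) := by
  have hH' : Primrec fun b => H (m b).unpair.1 (σ b) :=
    hH.comp (f := fun x : ℕ × List Bool => H x.1 x.2) (g := fun b => ((m b).unpair.1, σ b))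
      (by fun_prop)
  refine PrimrecPred.and (pp_Q hR (by fun_prop) hσ (by fun_prop)) (PrimrecPred.and ?_
    (PrimrecPred.not (pp_Q hR (by fun_prop) hσ (by fun_prop))))
  have h2 : Primrec fun x : β × ℕ => H (m x.1).unpair.1 (σ x.1) := hH'.comp Primrec.fst
  refine pp_exlt (pf_add (pf_length hH') (by fun_prop)) (pp_eq (pf_hlt (by fun_prop)
    (by fun_prop) (by fun_prop) (pf_take (by fun_prop) h2)) (by fun_prop))

theorem si_Ui (hH : Primrec fun x : ℕ × List Bool => H x.1 x.2)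
    (hR : PrimrecPred fun x : ℕ × List Bool × ℕ => Q x.1 x.2.1 x.2.2) (X : ℕ → Bool) :
    SI X (UUi e H Q X) :=
  SI.ex (p := fun (m s : ℕ) => Mxi e H Q (pre X s) m)
    (si_gen (P := fun y : ℕ × List Bool => Mxi e H Q y.2 y.1)
      (S1.of_prim (pp_Mxi e hH hR (by fun_prop) (by fun_prop))))

theorem si_FZi (hH : Primrec fun x : ℕ × List Bool => H x.1 x.2)
    (hR : PrimrecPred fun x : ℕ × List Bool × ℕ => Q x.1 x.2.1 x.2.2) (X : ℕ → Bool) :
    SI X (FZi e H Q X) := by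
  refine SI.ex (p := fun (m s0 : ℕ) => Q m.unpair.1 (pre X s0) (m.unpair.2 + 1) ∧
      ∀ s < s0, ¬ Mxi e H Q (pre X s) m) (SI.and ?_ ?_)
  · exact si_gen (P := fun y : ℕ × List Bool => Q y.1.unpair.1 y.2 (y.1.unpair.2 + 1))
      (S1.of_prim (pp_Q hR (by fun_prop) (by fun_prop) (by fun_prop)))
  · refine SI.all_lt (α := ℕ × ℕ) (p := fun x s => ¬ Mxi e H Q (pre X s) x.1)
      (f := fun x => x.2) ?_ Primrec.snd
    exact si_gen (α := ℕ × ℕ) (P := fun y : (ℕ × ℕ) × List Bool => ¬ Mxi e H Q y.2 y.1.1)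
      (S1.of_prim (PrimrecPred.not (pp_Mxi e hH hR (by fun_prop) (by fun_prop))))

theorem not_U_of_FZi (hC : CntI Q) {m : ℕ} (h : FZi e H Q X m) : ¬ UUi e H Q X m := by
  rintro ⟨s, hs⟩
  obtain ⟨s0, h1, h2⟩ := h
  by_cases hlt : s < s0
  · exact h2 s hlt hs
  · exact hs.2.2 (hC.mono _ _ _ _ (pre_prefix X (by omega)) h1)

theorem FZi_of_unb {m : ℕ} (h : Unb (Q m.unpair.1) X) (hn : ¬ UUi e H Q X m) :
    FZi e H Q X m := by
  obtain ⟨s0, h1⟩ := h (m.unpair.2 + 1)
  exact ⟨s0, h1, fun s _ h2 => hn ⟨s, h2⟩⟩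

theorem iso_le (hC : CntI Q) {n n' : ℕ} (h : n ≤ n') {σ : List Bool} {k : ℕ} (h1 : Q n σ k) :
    Q n' σ k := by
  induction n', h using Nat.le_induction with
  | base => exact h1
  | succ n' _ ih => exact hC.iso _ _ _ ih

/-- In the right column the simulation is right. -/
theorem col_iffi (hC : CntI Q) {a N : ℕ} {Z : ℕ → Bool} (h1 : Unb (Q (a + 1)) X)
    (h2 : ∀ s, ¬ Q a (pre X s) N) (hZ : Lim (H a) X Z) {z : ℕ} (hz : N ≤ z) :
    UUi e H Q X (Nat.pair a z) ↔ z ∈ WE Z e := by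
  unfold UUi Mxi
  simp only [Nat.unpair_pair]
  constructor
  · rintro ⟨s, -, ⟨k, hk, h3⟩, -⟩
    obtain ⟨n, hn⟩ := hZ.ok s
    rw [hn, length_pre] at hk
    rw [hn, take_pre _ _ _ (by omega)] at h3
    exact ⟨k, (exists_hlt_iff e z _).1 ⟨_, h3⟩⟩
  · rintro ⟨k, hk⟩
    obtain ⟨s1, hs1⟩ := (exists_hlt_iff e z _).2 hk
    obtain ⟨s2, hs2⟩ := h1 (a + z + 1)
    obtain ⟨s3, hs3⟩ := hZ.long k
    refine ⟨max s1 (max s2 s3), hC.mono _ _ _ _ (pre_prefix X (by omega)) hs2, ⟨k, ?_, ?_⟩,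
      fun h3 => h2 _ (hC.down _ _ _ _ (by omega) h3)⟩
    · have := hs3 (max s1 (max s2 s3)) (by omega)
      omega
    · obtain ⟨n, hn⟩ := hZ.ok (max s1 (max s2 s3))
      have h4 := hs3 (max s1 (max s2 s3)) (by omega)
      rw [hn, length_pre] at h4
      rw [hn, take_pre _ _ _ h4, length_pre]
      exact hlt_mono (by omega) hs1

/-- the guess `a` is the right one -/
theorem case_eqi (hH : Primrec fun x : ℕ × List Bool => H x.1 x.2)
    (hR : PrimrecPred fun x : ℕ × List Bool × ℕ => Q x.1 x.2.1 x.2.2) (hC : CntI Q) {a : ℕ}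
    {Z W : ℕ → Bool} (h1 : Unb (Q (a + 1)) X) (h2 : ¬ Unb (Q a) X) (hZ : Lim (H a) X Z)
    (hX : TLe X W) (hW : SI W fun z => z ∉ WE Z e) : SI W fun m => ¬ UUi e H Q X m := by
  classical
  unfold Unb at h2
  push Not at h2
  obtain ⟨N, hN⟩ := h2
  obtain ⟨B, hB⟩ := code_bd (N + a)
  have g1 : SI W (FZi e H Q X) := (si_FZi hH hR X).trans hX
  have g2 : SI W fun m : ℕ => (m.unpair.1 = a ∧ N ≤ m.unpair.2) ∧ m.unpair.2 ∉ WE Z e :=
    SI.and (SI.of_prim (PrimrecPred.and (pp_eq (by fun_prop) (by fun_prop))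
      (pp_le (by fun_prop) (by fun_prop)))) (hW.comp (f := fun m : ℕ => m.unpair.2) (by fun_prop))
  have g3 : SI W fun m : ℕ => (m.unpair.1 < a ∧ N ≤ m.unpair.1 + m.unpair.2) ∨
      m ∈ (List.range B).filter (fun m => decide (¬ UUi e H Q X m)) :=
    SI.of_prim (PrimrecPred.or (PrimrecPred.and (pp_lt (by fun_prop) (by fun_prop))
      (pp_le (by fun_prop) (by fun_prop))) (pp_mem (by fun_prop) (by fun_prop)))
  refine (SI.or g1 (SI.or g2 g3)).of_eq fun m => ?_
  have hm : m = Nat.pair m.unpair.1 m.unpair.2 := (Nat.pair_unpair m).symm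
  constructor
  · rintro (h3 | ⟨⟨h3, h4⟩, h5⟩ | ⟨h3, h4⟩ | h3)
    · exact not_U_of_FZi hC h3
    · rw [hm, h3, col_iffi hC h1 hN hZ h4]
      exact h5
    · rintro ⟨s, hs⟩
      exact hN s (hC.down _ _ _ _ (by omega) (iso_le hC (by omega) hs.1))
    · simpa using (List.mem_filter.1 h3).2
  · intro h3
    rcases lt_trichotomy m.unpair.1 a with h4 | h4 | h4
    · right; right
      by_cases h5 : N ≤ m.unpair.1 + m.unpair.2
      · exact Or.inl ⟨h4, h5⟩
      · exact Or.inr (List.mem_filter.2 ⟨List.mem_range.2 (hB m (by omega)), by simpa using h3⟩)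
    · right
      by_cases h5 : N ≤ m.unpair.2
      · left
        refine ⟨⟨h4, h5⟩, ?_⟩
        rw [← col_iffi (e := e) hC h1 hN hZ h5, ← h4, ← hm]
        exact h3
      · right; right
        exact List.mem_filter.2 ⟨List.mem_range.2 (hB m (by omega)), by simpa using h3⟩
    · left
      refine FZi_of_unb (fun k => ?_) h3
      obtain ⟨s, hs⟩ := h1 k
      exact ⟨s, iso_le hC (by omega) hs⟩

/-- the target can be computed from the simulation -/
theorem case_backi (hC : CntI Q) {a : ℕ} {Z V : ℕ → Bool} (h1 : Unb (Q (a + 1)) X)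
    (h2 : ¬ Unb (Q a) X) (hZ : Lim (H a) X Z) (hV : SI V fun m => ¬ UUi e H Q X m) :
    SI V fun z => z ∉ WE Z e := by
  classical
  unfold Unb at h2
  push Not at h2
  obtain ⟨N, hN⟩ := h2
  have g1 : SI V fun z : ℕ => N ≤ z ∧ ¬ UUi e H Q X (Nat.pair a z) :=
    SI.and (SI.of_prim (pp_le (by fun_prop) (by fun_prop)))
      (hV.comp (f := fun z : ℕ => Nat.pair a z) (by fun_prop))
  have g2 : SI V fun z : ℕ => z ∈ (List.range N).filter (fun z => decide (z ∉ WE Z e)) :=
    SI.of_prim (pp_mem (by fun_prop) (by fun_prop))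
  refine (SI.or g1 g2).of_eq fun z => ?_
  constructor
  · rintro (⟨h3, h4⟩ | h3)
    · rwa [col_iffi hC h1 hN hZ h3] at h4
    · simpa using (List.mem_filter.1 h3).2
  · intro h3
    by_cases h4 : N ≤ z
    · left
      refine ⟨h4, ?_⟩
      rwa [col_iffi hC h1 hN hZ h4]
    · exact Or.inr (List.mem_filter.2 ⟨List.mem_range.2 (by omega), by simpa using h3⟩)

/-- the operator -/
def UWi (e : ℕ) (H : ℕ → List Bool → List Bool) (Q : ℕ → List Bool → ℕ → Prop) (X : ℕ → Bool)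
    (n : ℕ) : Prop :=
  (n % 2 = 0 ∧ X (n / 2) = true) ∨ (n % 2 = 1 ∧ UUi e H Q X (n / 2))

theorem UWi0 (n : ℕ) : UWi e H Q X (2 * n) ↔ X n = true := by
  unfold UWi
  rw [show 2 * n / 2 = n by omega, show 2 * n % 2 = 0 by omega]
  simp

theorem UWi1 (n : ℕ) : UWi e H Q X (2 * n + 1) ↔ UUi e H Q X n := by
  unfold UWi
  rw [show (2 * n + 1) / 2 = n by omega, show (2 * n + 1) % 2 = 1 by omega]
  simp

theorem index_S1i (hH : Primrec fun x : ℕ × List Bool => H x.1 x.2)
    (hR : PrimrecPred fun x : ℕ × List Bool × ℕ => Q x.1 x.2.1 x.2.2) (e : ℕ) :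
    S1 fun x : List Bool × ℕ => (x.2 % 2 = 0 ∧ x.1[x.2 / 2]? = some true) ∨
    (x.2 % 2 = 1 ∧ Mxi e H Q x.1 (x.2 / 2)) := by
  refine S1.of_prim (PrimrecPred.or (PrimrecPred.and (pp_eq (by fun_prop) (by fun_prop))
    (pp_eq (Primrec.list_getElem?.comp (by fun_prop) (by fun_prop)) (by fun_prop)))
    (PrimrecPred.and (pp_eq (by fun_prop) (by fun_prop)) ?_))
  exact pp_Mxi e hH hR (by fun_prop) (by fun_prop)

theorem exists_indexi (hH : Primrec fun x : ℕ × List Bool => H x.1 x.2)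
    (hR : PrimrecPred fun x : ℕ × List Bool × ℕ => Q x.1 x.2.1 x.2.2) (e : ℕ) :
    ∃ e' : ℕ, ∀ X : ℕ → Bool, WE X e' = {m | UWi e H Q X m} := by
  obtain ⟨c, hc⟩ := Nat.Partrec.Code.exists_code.1 (index_S1i hH hR e).re
  refine ⟨encode c, fun X => ?_⟩
  ext m
  simp only [WE, Set.mem_ofPred_eq, Denumerable.ofNat_encode]
  have h1 : (∃ k : ℕ, (c.eval (encode ((List.range k).map X, m))).Dom) ↔
      ∃ k : ℕ, (m % 2 = 0 ∧ (pre X k)[m / 2]? = some true) ∨
      (m % 2 = 1 ∧ Mxi e H Q (pre X k) (m / 2)) := by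
    refine exists_congr fun k => ?_
    rw [hc]
    simp [Part.assert, pre]
  rw [h1]
  unfold UWi UUi
  constructor
  · rintro ⟨k, ⟨h, h'⟩ | ⟨h, h'⟩⟩
    · refine Or.inl ⟨h, ?_⟩
      by_cases hk : m / 2 < k
      · rw [pre_getElem? _ _ _ hk] at h'
        simpa using h'
      · rw [pre_getElem?_none _ _ _ (by omega)] at h'
        cases h'
    · exact Or.inr ⟨h, k, h'⟩
  · rintro (⟨h, h'⟩ | ⟨h, k, h'⟩)
    · exact ⟨m / 2 + 1, Or.inl ⟨h, by rw [pre_getElem? _ _ _ (Nat.lt_succ_self _), h']⟩⟩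
    · exact ⟨k, Or.inr ⟨h, h'⟩⟩

theorem tle_of_si {V : ℕ → Bool} {A : Set ℕ} (hp : SI V fun z => z ∈ A) (hn : SI V fun z => z ∉ A) :
    TLe (chr A) V := by
  rw [tLe_iff_SI]
  have h4 : SI V fun x : ℕ × Bool => (x.1 ∈ A ∧ x.2 = true) ∨ (x.1 ∉ A ∧ x.2 = false) := by
    refine SI.or (SI.and (hp.comp (f := fun x : ℕ × Bool => x.1) Primrec.fst) (SI.of_prim ?_))
      (SI.and (hn.comp (f := fun x : ℕ × Bool => x.1) Primrec.fst) (SI.of_prim ?_))
    · exact Primrec.eq.comp Primrec.snd (Primrec.const true)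
    · exact Primrec.eq.comp Primrec.snd (Primrec.const false)
  refine h4.of_eq fun x => ?_
  rcases x with ⟨n, b⟩
  cases b <;> simp [chr]

theorem si_not_mem {A : Set ℕ} : SI (chr A) fun z => z ∉ A := by
  refine ((SI.query (B := chr A)).comp (f := fun m : ℕ => (m, false)) (by fun_prop)).of_eq fun m => ?_
  simp [chr]

theorem si_mem_WE (Z : ℕ → Bool) (e : ℕ) : SI Z fun z => z ∈ WE Z e :=
  SI.iff_ceIn.1 (ceIn_iff_exists_WE.2 ⟨e, rfl⟩)

end

/-- **PATCH** -/
theorem t_PATCH : S_PATCH := by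
  intro e p Q hp hR hC
  have hH : Primrec fun x : ℕ × List Bool => (fun n σ => FF (p n) σ) x.1 x.2 :=
    pf_FF' (hp.comp Primrec.fst) Primrec.snd
  obtain ⟨e', he'⟩ := exists_indexi (H := fun n σ => FF (p n) σ) hH hR e
  refine ⟨e', fun X q Z hu hb hv hXZ hZe => ?_⟩
  have hL : Lim ((fun n σ => FF (p n) σ) q) X Z := lim_FF hv
  have hZX : TLe Z X := (lim_FF hv).le (pf_FF _)
  have hXW : TLe X (chr (WE X e')) := by
    have hf : Computable fun n : ℕ => 2 * n := by
      have : Primrec fun n : ℕ => 2 * n := by fun_prop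
      exact this.to_comp
    refine tLe_of_computable hf fun n => ?_
    rw [he', Bool.eq_iff_iff]
    simp only [chr, Set.mem_ofPred_eq, decide_eq_true_eq]
    rw [UWi0]
  constructor
  · -- from left to right
    have hXV : TLe X (chr (WE Z e)) := TuringReducible.trans hXZ hZe
    have hn : SI (chr (WE Z e)) fun m => ¬ UUi e (fun n σ => FF (p n) σ) Q X m :=
      case_eqi (H := fun n σ => FF (p n) σ) hH hR hC hu hb hL hXV si_not_mem
    refine tle_of_si ((si_mem_WE X e').trans hXV) ?_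
    have g0 : SI (chr (WE Z e)) fun m : ℕ => m % 2 = 0 ∧ X (m / 2) = false :=
      SI.and (SI.of_prim (pp_eq (by fun_prop) (by fun_prop)))
        (((SI.query (B := X)).trans hXV).comp (f := fun m : ℕ => (m / 2, false)) (by fun_prop))
    have g1 : SI (chr (WE Z e)) fun m : ℕ => m % 2 = 1 ∧ ¬ UUi e (fun n σ => FF (p n) σ) Q X (m / 2) :=
      SI.and (SI.of_prim (pp_eq (by fun_prop) (by fun_prop)))
        (hn.comp (f := fun m : ℕ => m / 2) (by fun_prop))
    refine (SI.or g0 g1).of_eq fun m => ?_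
    rw [he']
    simp only [Set.mem_ofPred_eq]
    unfold UWi
    rcases Nat.mod_two_eq_zero_or_one m with hm | hm
    · cases hx : X (m / 2) <;> simp [hm]
    · simp [hm]
  · -- from right to left
    have hn : SI (chr (WE X e')) fun m => ¬ UUi e (fun n σ => FF (p n) σ) Q X m := by
      refine ((si_not_mem (A := WE X e')).comp (f := fun m : ℕ => 2 * m + 1)
        (by fun_prop)).of_eq fun m => ?_
      rw [he']
      simp only [Set.mem_ofPred_eq]
      rw [UWi1]
    have hz := case_backi hC hu hb hL hn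
    exact tle_of_si ((si_mem_WE Z e).trans (TuringReducible.trans hZX hXW)) hz

end Pool.Agent.Q124.ZD.Patch
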