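import Pool.Agent.Q216.ZD.Base
import Pool.Agent.Q124.ZD.Init

/-! # ZD-STEP: a program for one step -/

set_option autoImplicit false

namespace Pool.Agent.Q124.ZD

open Encodable Pool.Agent.Helper227 Pool.Agent.H548R2.Post
open Nat.Partrec (Code)
open Pool.Agent.TH769.CD (pf_pow)
open Pool.Agent.TH769.TP (Via lab Unb lb pf_lb lb_lt lb_eq pre_lab)
open Pool.Agent.Q216.ZD

/-- all strings of length `s` -/
def strs : ℕ → List (List Bool)
  | 0 => [[]]
  | s + 1 => (strs s).flatMap fun τ => [false, true].map fun b => τ ++ [b]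

theorem mem_strs {s : ℕ} {τ : List Bool} : τ ∈ strs s ↔ τ.length = s := by
  induction s generalizing τ with
  | zero => simp [strs]
  | succ s ih =>
    simp only [strs, List.mem_flatMap, List.mem_map]
    constructor
    · rintro ⟨ρ, h1, b, -, rfl⟩
      rw [List.length_append, ih.1 h1]
      rfl
    · intro h
      have hne : τ ≠ [] := by
        rintro rfl
        simp at h
      refine ⟨τ.dropLast, ih.2 ?_, τ.getLast hne, ?_, List.dropLast_append_getLast hne⟩
      · rw [List.length_dropLast, h]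
        rfl
      · cases τ.getLast hne <;> simp

theorem primrec_strs : Primrec strs := by
  have h1 : Primrec₂ fun (_ : ℕ) (l : List (List Bool)) =>
      l.flatMap fun τ => [false, true].map fun b => τ ++ [b] := by
    refine Primrec.list_flatMap Primrec.snd ?_
    refine Primrec.list_map (Primrec.const _) ?_
    exact Primrec.list_append.comp (Primrec.snd.comp Primrec.fst)
      (Primrec.list_cons.comp Primrec.snd (Primrec.const []))
  refine (Primrec.nat_rec₁ [[]] h1).of_eq fun n => ?_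
  induction n with
  | zero => rfl
  | succ n ih =>
    simp only [strs]
    rw [← ih]

section
variable {α : Type} [Primcodable α]

/-- something semi-decidable happens for a member of `A` -/
theorem us_some {P : R → α → Prop} (hP : US P) :
    ∃ P' : R → α → Prop, US P' ∧ ∀ (A : Set R) a, P' (Zt A) a ↔ ∃ Y ∈ A, P Y a := by
  obtain ⟨E, hE, mE, eE⟩ := hP
  refine ⟨fun W a => ∃ τ : List Bool, W (encode τ) = true ∧ E (τ, a), ?_, fun A a => ?_⟩
  · refine US.ex (P := fun W a (τ : List Bool) => W (encode τ) = true ∧ E (τ, a)) (US.and ?_ ?_)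
    · exact US.query.comp (f := fun x : α × List Bool => (encode x.2, true))
        ((Primrec.encode.comp Primrec.snd).pair (Primrec.const true))
    · exact US.of_s1 (hE.comp (Primrec.snd.pair Primrec.fst))
  · constructor
    · rintro ⟨τ, h1, h2⟩
      obtain ⟨Y, hY, h3⟩ := zt_encode.1 h1
      exact ⟨Y, hY, (eE Y a).2 ⟨τ.length, by rw [h3]; exact h2⟩⟩
    · rintro ⟨Y, hY, h⟩
      obtain ⟨s, hs⟩ := (eE Y a).1 h
      exact ⟨pre Y s, zt_encode.2 ⟨Y, hY, by rw [length_pre]⟩, hs⟩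

/-- something semi-decidable happens for all members of the finite set `A` -/
theorem us_all {P : R → α → Prop} (hP : US P) :
    ∃ P' : R → α → Prop, US P' ∧ ∀ (A : Set R), A.Finite → ∀ a, P' (Zt A) a ↔ ∀ Y ∈ A, P Y a := by
  obtain ⟨E, hE, mE, eE⟩ := hP
  refine ⟨fun W a => ∃ s : ℕ, ∀ τ ∈ strs s, W (encode τ) = false ∨ E (τ, a), ?_, fun A hA a => ?_⟩
  · refine US.ex (P := fun W a (s : ℕ) => ∀ τ ∈ strs s, W (encode τ) = false ∨ E (τ, a)) ?_
    refine US.all_mem (P := fun W (x : α × ℕ) τ => W (encode τ) = false ∨ E (τ, x.1)) (US.or ?_ ?_)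
      (primrec_strs.comp Primrec.snd)
    · exact US.query.comp (f := fun x : (α × ℕ) × List Bool => (encode x.2, false))
        ((Primrec.encode.comp Primrec.snd).pair (Primrec.const false))
    · exact US.of_s1 (hE.comp (Primrec.snd.pair (Primrec.fst.comp Primrec.fst)))
  · constructor
    · rintro ⟨s, hs⟩ Y hY
      refine (eE Y a).2 ⟨s, ?_⟩
      rcases hs (pre Y s) (mem_strs.2 (length_pre _ _)) with h | h
      · have h2 : Zt A (encode (pre Y s)) = true := zt_encode.2 ⟨Y, hY, by rw [length_pre]⟩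
        rw [h] at h2
        cases h2
      · exact h
    · intro h
      have hex : ∃ s, ∀ Y ∈ A, E (pre Y s, a) := by
        have h' : ∀ Y ∈ A, ∃ s, E (pre Y s, a) := fun Y hY => (eE Y a).1 (h Y hY)
        clear h
        induction A, hA using Set.Finite.induction_on with
        | empty => exact ⟨0, fun Y hY => absurd hY (Set.notMem_empty Y)⟩
        | @insert Y B _ _ ih =>
          obtain ⟨s, hs⟩ := ih fun Z hZ => h' Z (Set.mem_insert_of_mem _ hZ)
          obtain ⟨t, ht⟩ := h' Y (Set.mem_insert _ _)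
          refine ⟨max s t, fun Z hZ => ?_⟩
          rcases Set.mem_insert_iff.1 hZ with rfl | hZ
          · exact mE _ _ _ (pre_prefix _ (le_max_right _ _)) ht
          · exact mE _ _ _ (pre_prefix _ (le_max_left _ _)) (hs Z hZ)
      obtain ⟨s, hs⟩ := hex
      refine ⟨s, fun τ hτ => ?_⟩
      rw [mem_strs] at hτ
      cases h1 : Zt A (encode τ) with
      | false => exact Or.inl rfl
      | true =>
        obtain ⟨Y, hY, h3⟩ := zt_encode.1 h1
        right
        rw [hτ] at h3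
        rw [← h3]
        exact hs Y hY

end

section
variable {L : ℕ} {T : ℕ → R → R} {ps : List Code}

/-- one step for one point -/
theorem us_one (h1 : S_ACT) (h2 : S_SEL) (hA : Acts ps L T) :
    ∃ P1 P0 : R → Code × ℕ × ℕ → Prop, US P1 ∧ US P0 ∧ ∀ (a : Code) (Y : R), Dec L T a Y →
      ∀ n m : ℕ, (P1 Y (a, n, m) ↔ pre (sel L T (2 ^ n) Y) (sg m).length = sg m) ∧
        (P0 Y (a, n, m) ↔ ¬ pre (sel L T (2 ^ n) Y) (sg m).length = sg m) := by
  have hact := h1 ps L T hA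
  obtain ⟨PS, hPS, hsel⟩ := h2 ps L T hA
  have pPS : US fun Y (x : (Code × ℕ × ℕ) × List ℕ) => PS Y (x.1.1, 2 ^ x.1.2.1, [], x.2) := by
    refine hPS.comp (f := fun x : (Code × ℕ × ℕ) × List ℕ =>
      (x.1.1, 2 ^ x.1.2.1, ([] : List ℕ), x.2)) ?_
    refine (Primrec.fst.comp Primrec.fst).pair (Primrec.pair ?_ ((Primrec.const _).pair Primrec.snd))
    exact pf_pow (Primrec.const 2) (Primrec.fst.comp (Primrec.snd.comp Primrec.fst))
  have hlen : Primrec fun x : (Code × ℕ × ℕ) × List ℕ => (sg x.1.2.2).length :=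
    Primrec.list_length.comp (primrec_sg.comp (Primrec.snd.comp (Primrec.snd.comp Primrec.fst)))
  have hg : Primrec fun x : ((Code × ℕ × ℕ) × List ℕ) × ℕ => (sg x.1.1.2.2).getD x.2 false :=
    (Primrec.list_getD false).comp
      (primrec_sg.comp (Primrec.snd.comp (Primrec.snd.comp (Primrec.fst.comp Primrec.fst))))
      Primrec.snd
  refine ⟨fun Y x => ∃ w, PS Y (x.1, 2 ^ x.2.1, [], w) ∧ ∀ i < (sg x.2.2).length,
      Wd L w ∧ act T w Y i = (sg x.2.2).getD i false,
    fun Y x => ∃ w, PS Y (x.1, 2 ^ x.2.1, [], w) ∧ ∃ i ∈ List.range (sg x.2.2).length,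
      Wd L w ∧ act T w Y i = !(sg x.2.2).getD i false, ?_, ?_, ?_⟩
  · refine US.ex (P := fun Y (x : Code × ℕ × ℕ) w => PS Y (x.1, 2 ^ x.2.1, [], w) ∧
      ∀ i < (sg x.2.2).length, Wd L w ∧ act T w Y i = (sg x.2.2).getD i false) (US.and pPS ?_)
    refine US.all_lt (P := fun Y (x : (Code × ℕ × ℕ) × List ℕ) i =>
      Wd L x.2 ∧ act T x.2 Y i = (sg x.1.2.2).getD i false) ?_ hlen
    exact hact.comp (f := fun x : ((Code × ℕ × ℕ) × List ℕ) × ℕ =>
      (x.1.2, x.2, (sg x.1.1.2.2).getD x.2 false))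
      ((Primrec.snd.comp Primrec.fst).pair (Primrec.snd.pair hg))
  · refine US.ex (P := fun Y (x : Code × ℕ × ℕ) w => PS Y (x.1, 2 ^ x.2.1, [], w) ∧
      ∃ i ∈ List.range (sg x.2.2).length, Wd L w ∧ act T w Y i = !(sg x.2.2).getD i false)
      (US.and pPS ?_)
    refine US.ex_mem (P := fun Y (x : (Code × ℕ × ℕ) × List ℕ) i =>
      Wd L x.2 ∧ act T x.2 Y i = !(sg x.1.2.2).getD i false) ?_ (Primrec.list_range.comp hlen)
    exact hact.comp (f := fun x : ((Code × ℕ × ℕ) × List ℕ) × ℕ =>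
      (x.1.2, x.2, !(sg x.1.1.2.2).getD x.2 false))
      ((Primrec.snd.comp Primrec.fst).pair (Primrec.snd.pair (Primrec.not.comp hg)))
  · intro a Y hD n m
    have hw : ∀ w, PS Y (a, 2 ^ n, [], w) ↔ w = wsel L T (2 ^ n) Y := fun w => by
      have := hsel a Y hD (2 ^ n) [] w wd_nil
      simpa using this
    have hwd : Wd L (wsel L T (2 ^ n) Y) := (mem_WL.1 (wsel_mem (2 ^ n) Y)).1
    simp only [hw, exists_eq_left]
    have hs : sel L T (2 ^ n) Y = act T (wsel L T (2 ^ n) Y) Y := rfl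
    rw [hs]
    constructor
    · rw [pre_eq_iff]
      exact forall_congr' fun i => forall_congr' fun _ => ⟨fun h => h.2, fun h => ⟨hwd, h⟩⟩
    · rw [pre_eq_iff]
      push Not
      constructor
      · rintro ⟨i, hi, -, h⟩
        exact ⟨i, List.mem_range.1 hi, by rw [h]; simp⟩
      · rintro ⟨i, hi, h⟩
        refine ⟨i, List.mem_range.2 hi, hwd, ?_⟩
        cases h4 : act T (wsel L T (2 ^ n) Y) Y i <;> cases h5 : (sg m).getD i false <;> simp_all

end

/-- **STEP** -/
theorem t_STEP (h0 : S_PROG) (h1 : S_ACT) (h2 : S_SEL) : S_STEP := by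
  intro ps L T hA
  obtain ⟨P1, P0, u1, u0, hP⟩ := us_one h1 h2 hA
  obtain ⟨Q1, v1, hQ1⟩ := us_some u1
  obtain ⟨Q0, v0, hQ0⟩ := us_all u0
  let P : R → ℕ × Code × ℕ × Bool → Prop := fun W x =>
    (x.2.2.1 < x.1 + 1 ∧ x.2.2.2 = false) ∨ ((x.2.2.1 = x.1 + 1 ∧ x.2.2.2 = true) ∨
      (x.1 + 2 ≤ x.2.2.1 ∧ ((x.2.2.2 = true ∧ Q1 W (x.2.1, x.1, x.2.2.1 - (x.1 + 2))) ∨
        (x.2.2.2 = false ∧ Q0 W (x.2.1, x.1, x.2.2.1 - (x.1 + 2))))))
  have pn : Primrec fun x : ℕ × Code × ℕ × Bool => x.1 := Primrec.fst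
  have pm : Primrec fun x : ℕ × Code × ℕ × Bool => x.2.2.1 :=
    Primrec.fst.comp (Primrec.snd.comp Primrec.snd)
  have pv : Primrec fun x : ℕ × Code × ℕ × Bool => x.2.2.2 :=
    Primrec.snd.comp (Primrec.snd.comp Primrec.snd)
  have pf : Primrec fun x : ℕ × Code × ℕ × Bool => (x.2.1, x.1, x.2.2.1 - (x.1 + 2)) :=
    (Primrec.fst.comp Primrec.snd).pair
      (pn.pair (Primrec.nat_sub.comp pm (Primrec.nat_add.comp pn (Primrec.const 2))))
  have hP' : US P := by
    refine US.or (US.of_prim ?_) (US.or (US.of_prim ?_) (US.and (US.of_prim ?_)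
      (US.or (US.and (US.of_prim ?_) (v1.comp pf)) (US.and (US.of_prim ?_) (v0.comp pf)))))
    · exact (Primrec.nat_lt.comp pm (Primrec.succ.comp pn)).and
        (Primrec.eq.comp pv (Primrec.const false))
    · exact (Primrec.eq.comp pm (Primrec.succ.comp pn)).and
        (Primrec.eq.comp pv (Primrec.const true))
    · exact Primrec.nat_le.comp (Primrec.nat_add.comp pn (Primrec.const 2)) pm
    · exact Primrec.eq.comp pv (Primrec.const true)
    · exact Primrec.eq.comp pv (Primrec.const false)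
  obtain ⟨P', hP'', hlab⟩ := us_lab hP'
  obtain ⟨I, hI, hV⟩ := h0 Code P' hP''
  refine ⟨I, hI, fun a X hD n A hAf _ hAo => hV a _ _ fun m v => ?_⟩
  rw [hlab]
  have hDY : ∀ Y ∈ A, Dec L T a Y := fun Y hY => hD.of_inOrb (hAo Y hY)
  have k1 : ∀ m, Q1 (Zt A) (a, n, m) ↔ Zt (sel L T (2 ^ n) '' A) m = true := by
    intro m
    rw [hQ1, zt_iff]
    constructor
    · rintro ⟨Y, hY, h⟩
      exact ⟨_, ⟨Y, hY, rfl⟩, ((hP a Y (hDY Y hY) n m).1).1 h⟩
    · rintro ⟨_, ⟨Y, hY, rfl⟩, h⟩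
      exact ⟨Y, hY, ((hP a Y (hDY Y hY) n m).1).2 h⟩
  have k0 : ∀ m, Q0 (Zt A) (a, n, m) ↔ Zt (sel L T (2 ^ n) '' A) m = false := by
    intro m
    rw [hQ0 A hAf, ← Bool.not_eq_true, zt_iff]
    push Not
    constructor
    · rintro h _ ⟨Y, hY, rfl⟩
      exact ((hP a Y (hDY Y hY) n m).2).1 (h Y hY)
    · intro h Y hY
      exact ((hP a Y (hDY Y hY) n m).2).2 (h _ ⟨Y, hY, rfl⟩)
  simp only [P, k1, k0]
  unfold lab
  rcases lt_trichotomy m (n + 1) with h | h | h
  · rw [if_pos h]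
    constructor
    · rintro (⟨-, h2⟩ | ⟨h2, -⟩ | ⟨h2, -⟩)
      · exact h2.symm
      all_goals omega
    · intro h2
      exact Or.inl ⟨h, h2.symm⟩
  · subst h
    rw [if_neg (lt_irrefl _), if_pos rfl]
    constructor
    · rintro (⟨h2, -⟩ | ⟨-, h2⟩ | ⟨h2, -⟩)
      · omega
      · exact h2.symm
      · omega
    · intro h2
      exact Or.inr (Or.inl ⟨rfl, h2.symm⟩)
  · rw [if_neg (by omega), if_neg (by omega)]
    have e2 : m - (n + 1) - 1 = m - (n + 2) := by omega
    rw [e2]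
    constructor
    · rintro (⟨h2, -⟩ | ⟨h2, -⟩ | ⟨-, ⟨h2, h3⟩ | ⟨h2, h3⟩⟩)
      · omega
      · omega
      · rw [h2, h3]
      · rw [h2, h3]
    · intro h2
      refine Or.inr (Or.inr ⟨by omega, ?_⟩)
      cases v with
      | true => exact Or.inl ⟨rfl, h2⟩
      | false => exact Or.inr ⟨rfl, h2⟩

end Pool.Agent.Q124.ZD
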